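import Mathlib

/-!
# H63C, file C1: long cycles from a path all of whose inner vertices are jumped over by chords

`R a b`: there is a chord from `a` to `b`, `a < b`. Dirac's argument: greedy chords; two disjoint paths from `0`.
-/

set_option autoImplicit false

namespace H63C

/-- `x`, `y` are consecutive or joined by a chord. -/
def Adj (R : ℕ → ℕ → Prop) (x y : ℕ) : Prop := x + 1 = y ∨ y + 1 = x ∨ R x y ∨ R y x

theorem Adj.symm {R : ℕ → ℕ → Prop} {x y : ℕ} (h : Adj R x y) : Adj R y x := by
  unfold Adj at *
  tauto

theorem chain_up (R : ℕ → ℕ → Prop) (p n : ℕ) : (List.range' p n).IsChain (Adj R) :=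
  (List.isChain_range' p n 1).imp fun a b h => Or.inl (by omega)

theorem chain_rev {R : ℕ → ℕ → Prop} {l : List ℕ} (h : l.IsChain (Adj R)) :
    l.reverse.IsChain (Adj R) := by
  rw [List.isChain_reverse]
  exact h.imp fun a b h1 => h1.symm

/-- Two disjoint paths from `0` to `p` and to `q`, as one list `p, m, q`. -/
structure St (R : ℕ → ℕ → Prop) (N s t p q : ℕ) (m : List ℕ) : Prop where
  pq : p < q
  qN : q ≤ N
  nod : m.Nodup
  lt : ∀ x ∈ m, x < p
  ch : (p :: (m ++ [q])).IsChain (Adj R)
  len : t ≤ m.length + 1
  mx : ∀ a b, a < p → R a b → b ≤ q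
  qs : q ≤ t * s

theorem step {R : ℕ → ℕ → Prop} {N s t p q : ℕ} {m : List ℕ} (h : St R N s t p q m) (hq : q < N)
    (hR : ∀ a b, R a b → a < b ∧ b ≤ N ∧ b ≤ a + s)
    (hc : ∀ i, 0 < i → i < N → ∃ a b, a < i ∧ i < b ∧ R a b) :
    ∃ b m', q < b ∧ St R N s (t + 1) q b m' := by
  classical
  have hpq := h.pq
  obtain ⟨a0, b0, h1, h2, h3⟩ := hc q (by omega) hq
  have hb0 : b0 ∈ (Finset.range (N + 1)).filter fun b => ∃ a < q, R a b := by
    rw [Finset.mem_filter, Finset.mem_range]
    exact ⟨by have := (hR _ _ h3).2.1; omega, a0, h1, h3⟩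
  obtain ⟨b, hb, hmax⟩ := Finset.exists_max_image ((Finset.range (N + 1)).filter fun b => ∃ a < q, R a b)
    (fun b => b) ⟨b0, hb0⟩
  rw [Finset.mem_filter, Finset.mem_range] at hb
  obtain ⟨hbN, a, haq, hab⟩ := hb
  have hqb : q < b := lt_of_lt_of_le h2 (hmax b0 hb0)
  have hpa : p ≤ a := by
    by_contra hlt
    have h4 := h.mx a b (by omega) hab
    omega
  have hrange : List.range' p (a + 1 - p) = p :: List.range' (p + 1) (a - p) := by
    have h4 : a + 1 - p = (a - p) + 1 := by omega
    rw [h4, List.range'_succ]
  refine ⟨b, m.reverse ++ List.range' p (a + 1 - p), hqb, ?_⟩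
  refine ⟨hqb, by omega, ?_, ?_, ?_, ?_, ?_, ?_⟩
  · rw [List.nodup_append]
    refine ⟨List.nodup_reverse.2 h.nod, List.nodup_range', ?_⟩
    intro x hx y hy hxy
    rw [List.mem_reverse] at hx
    rw [List.mem_range'_1] at hy
    have := h.lt x hx
    omega
  · intro x hx
    rw [List.mem_append, List.mem_reverse, List.mem_range'_1] at hx
    rcases hx with hx | hx
    · have := h.lt x hx
      omega
    · omega
  · have e1 : q :: ((m.reverse ++ List.range' p (a + 1 - p)) ++ [b]) =
        (q :: m.reverse) ++ p :: (List.range' (p + 1) (a - p) ++ [b]) := by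
      rw [hrange]
      simp
    rw [e1, List.isChain_split]
    constructor
    · have e2 : q :: m.reverse ++ [p] = (p :: (m ++ [q])).reverse := by simp
      rw [e2]
      exact chain_rev h.ch
    · have e3 : p :: (List.range' (p + 1) (a - p) ++ [b]) = List.range' p (a + 1 - p) ++ [b] := by
        rw [hrange]
        rfl
      rw [e3, List.isChain_append]
      refine ⟨chain_up R _ _, List.isChain_singleton b, ?_⟩
      intro x hx y hy
      have e4 : a + 1 - p = (a - p) + 1 := by omega
      rw [e4, List.range'_concat, List.getLast?_concat] at hx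
      simp only [Option.mem_def, Option.some.injEq, List.head?_cons] at hx hy
      have e5 : x = a := by omega
      subst hy
      rw [e5]
      exact Or.inr (Or.inr (Or.inl hab))
  · rw [List.length_append, List.length_reverse, List.length_range']
    have := h.len
    omega
  · intro a' b' h4 h5
    refine hmax b' ?_
    rw [Finset.mem_filter, Finset.mem_range]
    exact ⟨by have := (hR _ _ h5).2.1; omega, a', h4, h5⟩
  · have h4 := (hR _ _ hab).2.2
    have h5 := h.qs
    calc b ≤ a + s := h4
      _ ≤ t * s + s := by omega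
      _ = (t + 1) * s := by ring

theorem last {R : ℕ → ℕ → Prop} {N s : ℕ}
    (hR : ∀ a b, R a b → a < b ∧ b ≤ N ∧ b ≤ a + s)
    (hc : ∀ i, 0 < i → i < N → ∃ a b, a < i ∧ i < b ∧ R a b) :
    ∀ d t p q : ℕ, ∀ m : List ℕ, N - q = d → St R N s t p q m → ∃ t' p' m', St R N s t' p' N m' := by
  intro d
  induction d using Nat.strong_induction_on with
  | _ d ih =>
    intro t p q m hd h
    rcases Nat.lt_or_ge q N with hq | hq
    · obtain ⟨b, m', h1, h2⟩ := step h hq hR hc
      have h3 := h2.qN
      exact ih (N - b) (by omega) _ _ _ _ rfl h2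
    · have : q = N := le_antisymm h.qN hq
      subst this
      exact ⟨_, _, _, h⟩

/-- A long cycle. -/
theorem cyc {R : ℕ → ℕ → Prop} {N k : ℕ} (hk : 3 ≤ k) (hN : k * k ≤ N)
    (hR : ∀ a b, R a b → a < b ∧ b ≤ N)
    (hc : ∀ i, 0 < i → i < N → ∃ a b, a < i ∧ i < b ∧ R a b) :
    ∃ (v : ℕ) (t : List ℕ), (v :: t).Nodup ∧ k ≤ (v :: t).length ∧ (∀ x ∈ v :: t, x ≤ N) ∧
      ((v :: t) ++ [v]).IsChain (Adj R) := by
  by_cases hlong : ∃ a b, R a b ∧ a + k < b
  · obtain ⟨a, b, hab, h1⟩ := hlong
    have h2 := hR a b hab
    have hrange : List.range' a (b - a + 1) = a :: List.range' (a + 1) (b - a) := List.range'_succ ..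
    refine ⟨a, List.range' (a + 1) (b - a), ?_, ?_, ?_, ?_⟩
    · rw [← hrange]
      exact List.nodup_range'
    · rw [List.length_cons, List.length_range']
      omega
    · intro x hx
      rw [← hrange, List.mem_range'_1] at hx
      omega
    · rw [← hrange, List.isChain_append]
      refine ⟨chain_up R _ _, List.isChain_singleton a, ?_⟩
      intro x hx y hy
      rw [List.range'_concat, List.getLast?_concat] at hx
      simp only [Option.mem_def, Option.some.injEq, List.head?_cons] at hx hy
      have e5 : x = b := by omega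
      subst hy
      rw [e5]
      exact Or.inr (Or.inr (Or.inr hab))
  · push Not at hlong
    have hR' : ∀ a b, R a b → a < b ∧ b ≤ N ∧ b ≤ a + k := fun a b h =>
      ⟨(hR a b h).1, (hR a b h).2, hlong a b h⟩
    have hN1 : 1 < N := by nlinarith
    obtain ⟨a, b, h1, h2, h3⟩ := hc 1 one_pos hN1
    have ha : a = 0 := by omega
    subst ha
    have hst : St R N k 1 0 b [] := by
      refine ⟨by omega, (hR' _ _ h3).2.1, List.nodup_nil, by simp, ?_, by simp, ?_, ?_⟩
      · simp only [List.nil_append, List.isChain_pair]
        exact Or.inr (Or.inr (Or.inl h3))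
      · intro a' b' h4
        omega
      · have := (hR' _ _ h3).2.2
        omega
    obtain ⟨t, p, m, h⟩ := last hR' hc _ _ _ _ _ rfl hst
    have hpN := h.pq
    have hqs := h.qs
    have hlen := h.len
    have hkt : k ≤ t := by
      have : k * k ≤ t * k := le_trans hN hqs
      exact Nat.le_of_mul_le_mul_right this (by omega)
    have e0 : p :: (m ++ (List.range' (p + 1) (N - p)).reverse) ++ [p] =
        (p :: m) ++ N :: (List.range' p (N - p)).reverse := by
      have e1 : (List.range' (p + 1) (N - p)).reverse ++ [p] = (List.range' p (N - p + 1)).reverse := by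
        rw [List.range'_succ, List.reverse_cons]
      have e2 : (List.range' p (N - p + 1)).reverse = N :: (List.range' p (N - p)).reverse := by
        rw [List.range'_concat, List.reverse_append]
        simp
        omega
      rw [List.cons_append, List.append_assoc, e1, e2]
      rfl
    refine ⟨p, m ++ (List.range' (p + 1) (N - p)).reverse, ?_, ?_, ?_, ?_⟩
    · rw [List.nodup_cons, List.mem_append, List.nodup_append]
      refine ⟨?_, h.nod, List.nodup_reverse.2 List.nodup_range', ?_⟩
      · rintro (h4 | h4)
        · exact absurd (h.lt p h4) (lt_irrefl p)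
        · rw [List.mem_reverse, List.mem_range'_1] at h4
          omega
      · intro x hx y hy hxy
        rw [List.mem_reverse, List.mem_range'_1] at hy
        have := h.lt x hx
        omega
    · rw [List.length_cons, List.length_append, List.length_reverse, List.length_range']
      omega
    · intro x hx
      rw [List.mem_cons, List.mem_append, List.mem_reverse, List.mem_range'_1] at hx
      rcases hx with hx | hx | hx
      · omega
      · have := h.lt x hx
        omega
      · omega
    · rw [e0, List.isChain_split]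
      refine ⟨by simpa using h.ch, ?_⟩
      have e2 : N :: (List.range' p (N - p)).reverse = (List.range' p (N - p + 1)).reverse := by
        rw [List.range'_concat, List.reverse_append]
        simp
        omega
      rw [e2]
      exact chain_rev (chain_up R _ _)

end H63C
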