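import Pool.Agent.Lib.H63C.C1
import Pool.Agent.Lib.H98W.FIN
import Pool.Agent.Lib.H38Q.Defs

/-!
# H63C, file C2: from a plane path to a plane cycle

Let `x_0, ..., x_N` be a plane path of a crossing table and `W` its vertex set. A maximal plane set `G` of edges on `W`
which contains the path has no cut vertex (`H98W.hc_table`), so every inner vertex is jumped over by an edge of `G`.
With `H63C.cyc` the graph `G` has a cycle with at least `sqrt N` vertices.
-/

set_option autoImplicit false

namespace H63C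

open H53P Finset H98P H98Z H98M

variable {V : Type} [Fintype V] [DecidableEq V]

theorem acy_nonempty {cross : Sym2 V → Sym2 V → Prop} {S : Finset (Sym2 V)} (h : Acy cross S) :
    S.Nonempty := by
  classical
  obtain ⟨c, h1, h2⟩ := h (fun s => if s = ∅ then 1 else 0) (by
    intro s hs
    by_cases h3 : s = ∅
    · subst h3
      exact ⟨Finset.empty_subset _, fun e he => absurd he (Finset.notMem_empty e)⟩
    · exact absurd (if_neg h3) hs) (by
    intro r
    unfold bd
    refine Finset.sum_eq_zero fun e _ => ?_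
    exact if_neg (Finset.insert_ne_empty e r))
  have h3 := h2 ∅
  rw [if_pos rfl] at h3
  unfold bd at h3
  have h4 : ∑ e ∈ (∅ : Finset (Sym2 V))ᶜ, c (insert e ∅) ≠ 0 := by
    rw [h3]
    exact one_ne_zero
  obtain ⟨e, -, he⟩ := Finset.exists_ne_zero_of_sum_ne_zero h4
  exact ⟨e, (h1 _ he).1 (Finset.mem_insert_self e ∅)⟩

theorem mem_edges_of_chain {α : Type*} {A : α → α → Prop} : ∀ l : List α, l.IsChain A →
    ∀ p ∈ edges l, A p.1 p.2
  | [], _, p, hp => by simp [edges] at hp
  | [_], _, p, hp => by simp [edges] at hp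
  | a :: b :: l, h, p, hp => by
    rw [List.isChain_cons_cons] at h
    have h1 : edges (a :: b :: l) = (a, b) :: edges (b :: l) := rfl
    rw [h1, List.mem_cons] at hp
    rcases hp with rfl | hp
    · exact h.1
    · exact mem_edges_of_chain (b :: l) h.2 p hp

theorem edges_map {α β : Type*} (f : α → β) : ∀ l : List α, ∀ p ∈ edges (l.map f),
    ∃ q ∈ edges l, p = (f q.1, f q.2)
  | [], p, hp => by simp [edges] at hp
  | [_], p, hp => by simp [edges] at hp
  | a :: b :: l, p, hp => by
    have h1 : edges (a :: b :: l) = (a, b) :: edges (b :: l) := rfl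
    have h2 : edges ((a :: b :: l).map f) = (f a, f b) :: edges ((b :: l).map f) := rfl
    rw [h2, List.mem_cons] at hp
    rw [h1]
    rcases hp with rfl | hp
    · exact ⟨(a, b), List.mem_cons_self, rfl⟩
    · obtain ⟨q, hq, h3⟩ := edges_map f (b :: l) p hp
      exact ⟨q, List.mem_cons_of_mem _ hq, h3⟩

theorem edge_mem {α : Type*} (l : List α) (i : ℕ) (hi : i + 1 < l.length) :
    (l[i], l[i + 1]) ∈ edges l := by
  unfold edges
  rw [List.mem_iff_getElem]
  refine ⟨i, ?_, ?_⟩
  · rw [List.length_zip, List.length_tail]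
    omega
  · rw [List.getElem_zip, List.getElem_tail]

/-- From a plane path with `k ^ 2 + 1` vertices to a plane cycle with `k` vertices. -/
theorem cycle_of_path (T : Table V) {k : ℕ} (hk : 3 ≤ k) (h : H38Q.HasPath T (k * k + 1)) :
    T.HasCycle k := by
  classical
  obtain ⟨l, hnd, hlen, hpl⟩ := h
  obtain ⟨N, hN⟩ : ∃ N, l.length = N + 1 := ⟨l.length - 1, by omega⟩
  have hkN : k * k ≤ N := by omega
  have hl0 : 0 < l.length := by omega
  -- the vertices
  obtain ⟨x, hx⟩ : ∃ x : ℕ → V, ∀ i (hi : i < l.length), x i = l[i] :=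
    ⟨fun i => l.getD i l[0], fun i hi => List.getD_eq_getElem _ _ hi⟩
  have hinj : ∀ i j, i ≤ N → j ≤ N → x i = x j → i = j := by
    intro i j hi hj hij
    rw [hx i (by omega), hx j (by omega)] at hij
    exact (List.Nodup.getElem_inj_iff hnd).1 hij
  obtain ⟨W, hW⟩ : ∃ W : Finset V, ∀ v, v ∈ W ↔ ∃ i, i ≤ N ∧ x i = v := by
    refine ⟨l.toFinset, fun v => ?_⟩
    rw [List.mem_toFinset, List.mem_iff_getElem]
    constructor
    · rintro ⟨i, hi, rfl⟩
      exact ⟨i, by omega, hx i hi⟩
    · rintro ⟨i, hi, rfl⟩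
      exact ⟨i, by omega, (hx i (by omega)).symm⟩
  have hcr : ∀ a b c d, crossT T s(a, b) s(c, d) ↔ T.X a b c d = true := crossT_mk T
  have hpath : ∀ i j, i + 1 ≤ N → j + 1 ≤ N → ¬ crossT T s(x i, x (i + 1)) s(x j, x (j + 1)) := by
    intro i j hi hj h1
    rw [hcr, hx i (by omega), hx (i + 1) (by omega), hx j (by omega), hx (j + 1) (by omega)] at h1
    rw [hpl _ (edge_mem l i (by omega)) _ (edge_mem l j (by omega))] at h1
    exact Bool.noConfusion h1
  -- the path
  obtain ⟨P, hP⟩ : ∃ P : Finset (Sym2 V), ∀ e, e ∈ P ↔ ∃ i, i + 1 ≤ N ∧ e = s(x i, x (i + 1)) := by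
    refine ⟨(Finset.range N).image fun i => s(x i, x (i + 1)), fun e => ?_⟩
    rw [Finset.mem_image]
    constructor
    · rintro ⟨i, hi, rfl⟩
      exact ⟨i, by have := Finset.mem_range.1 hi; omega, rfl⟩
    · rintro ⟨i, hi, rfl⟩
      exact ⟨i, Finset.mem_range.2 (by omega), rfl⟩
  have hPW : P ⊆ LW W := by
    intro e he
    obtain ⟨i, hi, rfl⟩ := (hP e).1 he
    rw [mem_LW, hW, hW]
    refine ⟨⟨i, by omega, rfl⟩, ⟨i + 1, by omega, rfl⟩, fun h1 => ?_⟩
    have := hinj i (i + 1) (by omega) (by omega) h1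
    omega
  have hPp : Plane (crossT T) P := by
    intro e he f hf
    obtain ⟨i, hi, rfl⟩ := (hP e).1 he
    obtain ⟨j, hj, rfl⟩ := (hP f).1 hf
    exact hpath i j hi hj
  -- a maximal plane set
  obtain ⟨G, hG, hmax⟩ := Finset.exists_max_image
    ((LW W).powerset.filter fun G => P ⊆ G ∧ Plane (crossT T) G) Finset.card
    ⟨P, Finset.mem_filter.2 ⟨Finset.mem_powerset.2 hPW, Finset.Subset.refl P, hPp⟩⟩
  rw [Finset.mem_filter, Finset.mem_powerset] at hG
  obtain ⟨hGW, hPG, hGp⟩ := hG
  have hself : ∀ e, ¬ crossT T e e := fun e => Sym2.ind (fun a b => (geo_table T).adj a b b) e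
  have hmaxl : ∀ e ∈ Un (crossT T) W G, False := by
    intro e he
    rw [mem_un] at he
    obtain ⟨h1, h2, h3⟩ := he
    have h4 : insert e G ∈ (LW W).powerset.filter fun G => P ⊆ G ∧ Plane (crossT T) G := by
      rw [Finset.mem_filter, Finset.mem_powerset]
      refine ⟨Finset.insert_subset h1 hGW, hPG.trans (Finset.subset_insert _ _), ?_⟩
      intro f hf g hg
      rw [Finset.mem_insert] at hf hg
      rcases hf with hf | hf
      · rcases hg with hg | hg
        · rw [hf, hg]
          exact hself e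
        · rw [hf]
          exact h2 g hg
      · rcases hg with hg | hg
        · rw [hg]
          exact fun h5 => h2 f hf (crossT_symm T _ _ h5)
        · exact hGp f hf g hg
    have h5 := hmax _ h4
    rw [Finset.card_insert_of_notMem h3] at h5
    omega
  have hconn : ¬ Disc W G := by
    rintro ⟨C, D, hC, hD, hdis, hun, hcut⟩
    have h1 : ∀ v, v ∈ W → v ∈ C ∨ v ∈ D := fun v hv => by
      rw [← hun, Finset.mem_union] at hv
      exact hv
    have hstep : ∀ (A B : Finset V), (∀ v, v ∈ W → v ∈ A ∨ v ∈ B) → Disjoint A B →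
        (∀ a ∈ A, ∀ b ∈ B, s(a, b) ∉ G) → x 0 ∈ A → ∀ i, i ≤ N → x i ∈ A := by
      intro A B hAB hd hc h0 i
      induction i with
      | zero => exact fun _ => h0
      | succ i ih =>
        intro hi
        rcases hAB (x (i + 1)) ((hW _).2 ⟨i + 1, hi, rfl⟩) with h2 | h2
        · exact h2
        · exact absurd (hPG ((hP _).2 ⟨i, hi, rfl⟩)) (hc _ (ih (by omega)) _ h2)
    have hall : ∀ (A B : Finset V), B.Nonempty → B ⊆ W → (∀ v, v ∈ W → v ∈ A ∨ v ∈ B) → Disjoint A B →
        (∀ a ∈ A, ∀ b ∈ B, s(a, b) ∉ G) → x 0 ∈ A → False := by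
      intro A B hB hBW hAB hd hc h0
      obtain ⟨b, hb⟩ := hB
      obtain ⟨i, hi, rfl⟩ := (hW b).1 (hBW hb)
      exact Finset.disjoint_left.1 hd (hstep A B hAB hd hc h0 i hi) hb
    have hCW : C ⊆ W := by
      rw [← hun]
      exact Finset.subset_union_left
    have hDW : D ⊆ W := by
      rw [← hun]
      exact Finset.subset_union_right
    rcases h1 (x 0) ((hW _).2 ⟨0, by omega, rfl⟩) with h2 | h2
    · exact hall C D hD hDW h1 hdis hcut h2
    · exact hall D C hC hCW (fun v hv => (h1 v hv).symm) hdis.symm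
        (fun a ha b hb => by
          rw [Sym2.eq_swap]
          exact hcut b hb a ha) h2
  -- every inner vertex is jumped over
  have hcov : ∀ i, 0 < i → i < N → ∃ a b, a < i ∧ i < b ∧ (a < b ∧ b ≤ N ∧ s(x a, x b) ∈ G) := by
    intro i hi0 hiN
    by_contra hno
    push Not at hno
    have hdisc : Disc (W.erase (x i)) (G.filter fun e => x i ∉ e) := by
      refine ⟨(Finset.range i).image x, (Finset.Ioc i N).image x, ⟨x 0, ?_⟩, ⟨x N, ?_⟩, ?_, ?_, ?_⟩
      · exact Finset.mem_image_of_mem x (Finset.mem_range.2 hi0)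
      · exact Finset.mem_image_of_mem x (Finset.mem_Ioc.2 ⟨hiN, le_refl N⟩)
      · rw [Finset.disjoint_left]
        intro v h1 h2
        obtain ⟨a, ha, rfl⟩ := Finset.mem_image.1 h1
        obtain ⟨b, hb, hab⟩ := Finset.mem_image.1 h2
        rw [Finset.mem_range] at ha
        rw [Finset.mem_Ioc] at hb
        have := hinj b a hb.2 (by omega) hab
        omega
      · ext v
        rw [Finset.mem_union, Finset.mem_image, Finset.mem_image, Finset.mem_erase, hW]
        constructor
        · rintro (⟨a, ha, rfl⟩ | ⟨b, hb, rfl⟩)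
          · rw [Finset.mem_range] at ha
            refine ⟨fun h1 => ?_, a, by omega, rfl⟩
            have := hinj a i (by omega) (by omega) h1
            omega
          · rw [Finset.mem_Ioc] at hb
            refine ⟨fun h1 => ?_, b, hb.2, rfl⟩
            have := hinj b i hb.2 (by omega) h1
            omega
        · rintro ⟨h1, a, ha, rfl⟩
          rcases lt_trichotomy a i with h2 | h2 | h2
          · exact Or.inl ⟨a, Finset.mem_range.2 h2, rfl⟩
          · exact absurd (by rw [h2]) h1
          · exact Or.inr ⟨a, Finset.mem_Ioc.2 ⟨h2, ha⟩, rfl⟩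
      · intro v hv w hw hvw
        obtain ⟨a, ha, rfl⟩ := Finset.mem_image.1 hv
        obtain ⟨b, hb, rfl⟩ := Finset.mem_image.1 hw
        rw [Finset.mem_range] at ha
        rw [Finset.mem_Ioc] at hb
        exact hno a b ha hb.1 (by omega) hb.2 (Finset.mem_filter.1 hvw).1
    have hacy := H98W.hc_table T W G (x i) hGW hGp ((hW _).2 ⟨i, by omega, rfl⟩) hconn hdisc
    obtain ⟨e, he⟩ := acy_nonempty hacy
    exact hmaxl e he
  obtain ⟨v, t, h1, h2, h3, h4⟩ := cyc (R := fun a b => a < b ∧ b ≤ N ∧ s(x a, x b) ∈ G) hk hkN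
    (fun a b h => ⟨h.1, h.2.1⟩) hcov
  refine ⟨x v, t.map x, ?_, ?_, ?_, ?_⟩
  · have h5 : x v :: t.map x = (v :: t).map x := rfl
    rw [h5]
    exact List.Nodup.map_on (fun a ha b hb hab => hinj a b (h3 a ha) (h3 b hb) hab) h1
  · simpa using h2
  · have : (x v :: t.map x).length = (v :: t).length := by simp
    omega
  · have h5 : x v :: t.map x ++ [x v] = ((v :: t) ++ [v]).map x := by simp
    have hmem : ∀ p ∈ edges (x v :: t.map x ++ [x v]), s(p.1, p.2) ∈ G := by
      intro p hp
      rw [h5] at hp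
      obtain ⟨q, hq, rfl⟩ := edges_map x _ p hp
      have hle : ∀ a ∈ (v :: t) ++ [v], a ≤ N := by
        intro a ha
        rw [List.mem_append, List.mem_singleton] at ha
        rcases ha with ha | rfl
        · exact h3 a ha
        · exact h3 a List.mem_cons_self
      have hq1 : q.1 ≤ N := hle _ (List.of_mem_zip hq).1
      have hq2 : q.2 ≤ N := hle _ (List.mem_of_mem_tail (List.of_mem_zip hq).2)
      rcases mem_edges_of_chain _ h4 q hq with h6 | h6 | h6 | h6
      · rw [← h6]
        exact hPG ((hP _).2 ⟨q.1, by omega, rfl⟩)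
      · rw [← h6, Sym2.eq_swap]
        exact hPG ((hP _).2 ⟨q.2, by omega, rfl⟩)
      · exact h6.2.2
      · rw [Sym2.eq_swap]
        exact h6.2.2
    intro e he f hf
    rw [← Bool.not_eq_true, ← hcr]
    exact hGp _ (hmem e he) _ (hmem f hf)

end H63C
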