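import Pool.Agent.Lib.H63C.C2
import Pool.Agent.Lib.H38Q.M2
import Pool.Agent.Lib.H38R.E7

/-!
# H63C, file C3: the plane cycle theorem with exponent `1 / 6`

`H38Q.main_table` gives a plane path with `k * k + 1` vertices when `C * (k * k + 1) ^ 3 ≤ n`, and `cycle_of_path`
turns it into a plane cycle with at least `k` vertices.
-/

set_option autoImplicit false

open H53P SimpleDraw

namespace H63C

theorem cycle_table : ∃ C : ℕ, 1 ≤ C ∧ ∀ (V : Type) [Fintype V] [DecidableEq V] (T : Table V)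
    (k : ℕ), 3 ≤ k → C * k ^ 6 ≤ Fintype.card V → T.HasCycle k := by
  obtain ⟨C, hC, h⟩ := H38Q.main_table
  refine ⟨C * 8, by omega, ?_⟩
  intro V _ _ T k hk hn
  refine cycle_of_path T hk (h V T (k * k + 1) (by omega) (le_trans ?_ hn))
  have h1 : k * k + 1 ≤ 2 * (k * k) := by nlinarith
  calc C * (k * k + 1) ^ 3 ≤ C * (2 * (k * k)) ^ 3 := Nat.mul_le_mul_left _ (Nat.pow_le_pow_left h1 3)
    _ = C * 8 * k ^ 6 := by ring

/-- Every simple drawing of `K_n`, `n ≥ 3`, has a plane cycle with at least `c * n ^ (1 / 6)` vertices. -/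
theorem final_cycle : ∃ c : ℝ, 0 < c ∧ ∀ n : ℕ, 3 ≤ n → ∀ D : SimpleDrawing n, ∃ m : ℕ, 3 ≤ m ∧
    c * (n : ℝ) ^ (1 / 6 : ℝ) ≤ m ∧
      ∃ f : Fin m ↪ Fin n, D.Plane ((SimpleGraph.cycleGraph m).map f) := by
  obtain ⟨C, hC, h⟩ := cycle_table
  have hC0 : (1 : ℝ) ≤ (C : ℝ) := by exact_mod_cast hC
  have hCp : (0 : ℝ) < (C : ℝ) := lt_of_lt_of_le one_pos hC0
  refine ⟨1 / (2 * C), by positivity, ?_⟩
  intro n hn D
  obtain ⟨x, hx⟩ : ∃ x : ℝ, x = (n : ℝ) / C := ⟨_, rfl⟩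
  have hx0 : 0 ≤ x := by
    rw [hx]
    positivity
  obtain ⟨t, ht⟩ : ∃ t : ℝ, t = x ^ (1 / 6 : ℝ) := ⟨_, rfl⟩
  have ht0 : 0 ≤ t := by
    rw [ht]
    exact Real.rpow_nonneg hx0 _
  have ht6 : t ^ 6 = x := by
    rw [ht, ← Real.rpow_natCast, ← Real.rpow_mul hx0]
    norm_num
  have hnC : (n : ℝ) = C * x := by
    rw [hx]
    field_simp
  have hct : 1 / (2 * (C : ℝ)) * (n : ℝ) ^ (1 / 6 : ℝ) ≤ t / 2 := by
    rw [hnC, Real.mul_rpow hCp.le hx0, ← ht]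
    have h1 : (C : ℝ) ^ (1 / 6 : ℝ) ≤ C := by
      calc (C : ℝ) ^ (1 / 6 : ℝ) ≤ (C : ℝ) ^ (1 : ℝ) := Real.rpow_le_rpow_of_exponent_le hC0 (by norm_num)
        _ = C := Real.rpow_one _
    calc 1 / (2 * (C : ℝ)) * ((C : ℝ) ^ (1 / 6 : ℝ) * t) ≤ 1 / (2 * (C : ℝ)) * (C * t) := by
          refine mul_le_mul_of_nonneg_left (mul_le_mul_of_nonneg_right h1 ht0) (by positivity)
      _ = t / 2 := by field_simp
  obtain ⟨k, hk⟩ : ∃ k : ℕ, k = ⌊t⌋₊ := ⟨_, rfl⟩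
  have hk1 : (k : ℝ) ≤ t := by
    rw [hk]
    exact Nat.floor_le ht0
  have hk2 : t < k + 1 := by
    rw [hk]
    exact Nat.lt_floor_add_one t
  by_cases h3 : 3 ≤ k
  · have h4 : C * k ^ 6 ≤ n := by
      have h5 : (C : ℝ) * (k : ℝ) ^ 6 ≤ n := by
        rw [hnC, ← ht6]
        exact mul_le_mul_of_nonneg_left (pow_le_pow_left₀ (Nat.cast_nonneg k) hk1 6) hCp.le
      exact_mod_cast h5
    obtain ⟨m, hm, hm3, hf⟩ := fin1_cycle D (h (Fin n) (table D) k h3 (by rw [Fintype.card_fin]; exact h4))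
    refine ⟨m, hm3, hct.trans ?_, hf⟩
    have h6 : (k : ℝ) ≤ m := by exact_mod_cast hm
    have h7 : (3 : ℝ) ≤ k := by exact_mod_cast h3
    linarith
  · obtain ⟨m, hm, hm3, hf⟩ := fin1_cycle D (H38R.triangle hn D)
    refine ⟨m, hm3, hct.trans ?_, hf⟩
    have h6 : (3 : ℝ) ≤ m := by exact_mod_cast hm
    have h7 : (k : ℝ) ≤ 2 := by exact_mod_cast (by omega : k ≤ 2)
    linarith

end H63C
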